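import Mathlib
import Pool.Agent.HS.M_heat_fail

set_option autoImplicit false

open MeasureTheory ProbabilityTheory

namespace Pool.Agent.Results.MP_5c2e50_an.HeatSmoothingFails

/-- For every `1 < p < 2` and every `c > 0` there are `d ≥ 1`, `n ≥ 1`, a real polynomial `f` on
`ℝⁿ` that is orthogonal in `L₂(γₙ)` to all polynomials of degree `< d` (that is
`f ∈ W_{≥ d}`), and `t > 0` with `‖P_t f‖_p > e^{-tdc} ‖f‖_p` in `L_p(γₙ)`. -/
theorem result (p c : ℝ) (hp : 1 < p) (hp2 : p < 2) (hc : 0 < c) :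
    ∃ (d n : ℕ) (f : MvPolynomial (Fin n) ℝ) (t : ℝ), 1 ≤ d ∧ 1 ≤ n ∧ 0 < t ∧
      (∀ g : MvPolynomial (Fin n) ℝ, g.totalDegree < d →
        ∫ x, MvPolynomial.eval x f * MvPolynomial.eval x g
          ∂(Measure.pi (fun _ : Fin n => gaussianReal 0 1)) = 0) ∧
      Real.exp (-(t * (d : ℝ) * c)) *
          (∫ x, |MvPolynomial.eval x f| ^ p
            ∂(Measure.pi (fun _ : Fin n => gaussianReal 0 1))) ^ (1 / p) <
        (∫ x, |∫ y, MvPolynomial.eval
              (fun i => Real.exp (-t) * x i + Real.sqrt (1 - Real.exp (-2 * t)) * y i) f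
              ∂(Measure.pi (fun _ : Fin n => gaussianReal 0 1))| ^ p
            ∂(Measure.pi (fun _ : Fin n => gaussianReal 0 1))) ^ (1 / p) := by
  obtain ⟨d, n, f, hd, hn, horth, -, t, ht, hlt⟩ := HS.heat_fail p c hp hp2 hc
  exact ⟨d, n, f, t, hd, hn, ht, horth, hlt⟩

end Pool.Agent.Results.MP_5c2e50_an.HeatSmoothingFails
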